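import Mathlib

/-!
# MP_dc78ae_al, Q2: multivariate cogrowth of the commutator subgroup

For every `m ≥ 2`, every subgroup `H` of `F_m` containing the commutator subgroup and every
direction `r`, the multivariate cogrowth `ψ_H(r)` equals `ψ_{F_m}(r)`.
-/

namespace Pool.Agent.Results.MP_dc78ae_al.AbelianQuotient

open Filter Topology

variable {m : ℕ}

/-- The vector `℘(w)`: the numbers of letters `a_i^{±1}` in the reduced word of `w`. -/
noncomputable def wp (w : FreeGroup (Fin m)) : Fin m → ℝ :=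
  fun i => ((w.toWord.countP (fun l => decide (l.1 = i)) : ℕ) : ℝ)

/-- The elements `w` of `H` with `R ≤ ‖℘(w)‖ < R + 1` and `℘(w) ∈ C` (`ℓ₁` norm). -/
def shell (H : Subgroup (FreeGroup (Fin m))) (C : Set (Fin m → ℝ)) (R : ℝ) :
    Set (FreeGroup (Fin m)) :=
  {w | w ∈ H ∧ R ≤ ∑ i, |wp w i| ∧ ∑ i, |wp w i| < R + 1 ∧ wp w ∈ C}

/-- Logarithm of a natural number with `log 0 = -∞`. -/
noncomputable def elog (n : ℕ) : EReal := if n = 0 then ⊥ else ((Real.log n : ℝ) : EReal)

/-- The exponent `τ_{H,C}`. -/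
noncomputable def tau (H : Subgroup (FreeGroup (Fin m))) (C : Set (Fin m → ℝ)) : EReal :=
  limsup (fun R : ℝ => ((1 / R : ℝ) : EReal) * elog (shell H C R).ncard) atTop

/-- Open cones. -/
def IsOpenCone (C : Set (Fin m → ℝ)) : Prop := IsOpen C ∧ ∀ x ∈ C, ∀ t : ℝ, 0 < t → t • x ∈ C

/-- The multivariate cogrowth `ψ_H(r)`. -/
noncomputable def psi (H : Subgroup (FreeGroup (Fin m))) (r : Fin m → ℝ) : EReal :=
  ⨅ (C : Set (Fin m → ℝ)) (_ : IsOpenCone C ∧ r ∈ C), tau H C

/-! ### Words -/

lemma sum_countP (L : List (Fin m × Bool)) :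
    ∑ i : Fin m, L.countP (fun l => decide (l.1 = i)) = L.length := by
  induction L with
  | nil => simp
  | cons a L ih =>
    simp only [List.countP_cons, List.length_cons]
    rw [Finset.sum_add_distrib, ih]
    simp

lemma norm_wp (w : FreeGroup (Fin m)) : ∑ i, |wp w i| = (w.toWord.length : ℝ) := by
  rw [← sum_countP w.toWord]
  push_cast
  apply Finset.sum_congr rfl
  intro i _
  exact abs_of_nonneg (Nat.cast_nonneg _)

lemma sum_wp (w : FreeGroup (Fin m)) : ∑ i, wp w i = (w.toWord.length : ℝ) := by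
  rw [← sum_countP w.toWord]
  push_cast
  rfl

lemma wp_nonneg (w : FreeGroup (Fin m)) (i : Fin m) : 0 ≤ wp w i := Nat.cast_nonneg _

lemma wp_le (w : FreeGroup (Fin m)) (i : Fin m) : wp w i ≤ w.toWord.length := by
  unfold wp
  exact_mod_cast List.countP_le_length

lemma shell_eq (H : Subgroup (FreeGroup (Fin m))) (C : Set (Fin m → ℝ)) {R : ℝ} (hR : 0 < R) :
    shell H C R = {w | w ∈ H ∧ w.toWord.length = ⌈R⌉₊ ∧ wp w ∈ C} := by
  ext w
  simp only [shell, Set.mem_setOf_eq, norm_wp]
  constructor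
  · rintro ⟨h1, h2, h3, h4⟩
    refine ⟨h1, ?_, h4⟩
    symm
    rw [Nat.ceil_eq_iff (by
      intro h0
      rw [h0] at h2
      simp at h2
      linarith)]
    refine ⟨?_, h2⟩
    have hpos : 0 < w.toWord.length := by
      by_contra h0
      have : w.toWord.length = 0 := by omega
      rw [this] at h2
      simp at h2
      linarith
    rw [Nat.cast_sub hpos]
    push_cast
    linarith
  · rintro ⟨h1, h2, h4⟩
    refine ⟨h1, ?_, ?_, h4⟩
    · rw [h2]; exact Nat.le_ceil R
    · rw [h2]; exact Nat.ceil_lt_add_one hR.le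

lemma finite_length (n : ℕ) : {w : FreeGroup (Fin m) | w.toWord.length = n}.Finite :=
  (List.finite_length_eq (Fin m × Bool) n).preimage FreeGroup.toWord_injective.injOn

lemma shell_finite (H : Subgroup (FreeGroup (Fin m))) (C : Set (Fin m → ℝ)) {R : ℝ} (hR : 0 < R) :
    (shell H C R).Finite := by
  rw [shell_eq H C hR]
  exact (finite_length ⌈R⌉₊).subset fun w hw => hw.2.1

lemma elog_mono {a b : ℕ} (h : a ≤ b) : elog a ≤ elog b := by
  unfold elog
  by_cases ha : a = 0
  · simp [ha]
  · have hb : b ≠ 0 := by omega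
    rw [if_neg ha, if_neg hb]
    have ha' : (0 : ℝ) < a := by exact_mod_cast Nat.pos_of_ne_zero ha
    exact_mod_cast Real.log_le_log ha' (by exact_mod_cast h)

lemma tau_mono {H H' : Subgroup (FreeGroup (Fin m))} {C C' : Set (Fin m → ℝ)} (hH : H ≤ H')
    (hC : C ⊆ C') : tau H C ≤ tau H' C' := by
  have key : ∀ᶠ R : ℝ in atTop, ((1 / R : ℝ) : EReal) * elog (shell H C R).ncard ≤
      ((1 / R : ℝ) : EReal) * elog (shell H' C' R).ncard := by
    filter_upwards [eventually_gt_atTop 0] with R hR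
    apply mul_le_mul_of_nonneg_left
    · apply elog_mono
      apply Set.ncard_le_ncard _ (shell_finite H' C' hR)
      rintro w ⟨h1, h2, h3, h4⟩
      exact ⟨hH h1, h2, h3, hC h4⟩
    · exact_mod_cast (by positivity : (0 : ℝ) ≤ 1 / R)
  exact limsup_le_limsup key

lemma psi_mono {H H' : Subgroup (FreeGroup (Fin m))} (hH : H ≤ H') (r : Fin m → ℝ) :
    psi H r ≤ psi H' r := by
  unfold psi
  exact iInf₂_mono fun C _ => tau_mono hH (le_refl C)

/-- The connecting word. -/
def cw (x : Fin m × Bool) (y : Fin m) : List (Fin m × Bool) :=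
  [(y, true), (x.1, !x.2), (y, false), (x.1, x.2)]

lemma toWord_conn (u v : FreeGroup (Fin m)) (x : Fin m × Bool) (lu lv : List (Fin m × Bool))
    (hu : u.toWord = x :: lu) (hv : v.toWord = x :: lv) (y : Fin m) (hy : y ≠ x.1) :
    (u⁻¹ * FreeGroup.mk (cw x y) * v).toWord =
      FreeGroup.invRev u.toWord ++ cw x y ++ v.toWord := by
  have h1 : u⁻¹ * FreeGroup.mk (cw x y) * v =
      FreeGroup.mk (FreeGroup.invRev u.toWord ++ cw x y ++ v.toWord) := by
    conv_lhs => rw [← FreeGroup.mk_toWord (x := u), ← FreeGroup.mk_toWord (x := v)]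
    rw [FreeGroup.inv_mk, FreeGroup.mul_mk, FreeGroup.mul_mk]
  rw [h1, FreeGroup.toWord_mk]
  apply FreeGroup.IsReduced.reduce_eq
  have hru : FreeGroup.IsReduced (FreeGroup.invRev u.toWord) := by
    rw [← FreeGroup.toWord_inv]; exact FreeGroup.isReduced_toWord
  have hrv : FreeGroup.IsReduced v.toWord := FreeGroup.isReduced_toWord
  unfold FreeGroup.IsReduced at *
  rw [List.isChain_append, List.isChain_append]
  refine ⟨⟨hru, ?_, ?_⟩, hrv, ?_⟩
  · simp only [cw, List.isChain_cons_cons, List.isChain_singleton, and_true]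
    refine ⟨fun h => absurd h hy, fun h => absurd h hy.symm, fun h => absurd h hy⟩
  · intro a ha b hb
    rw [hu] at ha
    simp only [FreeGroup.invRev, List.map_cons, List.reverse_cons, List.getLast?_append,
      List.getLast?_singleton, Option.some_or, Option.mem_def, Option.some.injEq] at ha
    simp only [cw, List.head?_cons, Option.mem_def, Option.some.injEq] at hb
    rw [← ha, ← hb]
    exact fun h => absurd h hy.symm
  · intro a ha b hb
    simp only [cw, List.getLast?_append, List.getLast?_cons_cons, List.getLast?_singleton,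
      Option.some_or, Option.mem_def, Option.some.injEq] at ha
    rw [hv] at hb
    simp only [List.head?_cons, Option.mem_def, Option.some.injEq] at hb
    rw [← ha, ← hb]
    exact fun _ => rfl

/-- Words with the same letter counts agree in the abelianization. -/
lemma abel_eq (u v : FreeGroup (Fin m)) (h : ∀ l, u.toWord.count l = v.toWord.count l) :
    Abelianization.of u = Abelianization.of v := by
  have hperm : u.toWord.Perm v.toWord := List.perm_iff_count.mpr h
  have key : ∀ w : FreeGroup (Fin m), Abelianization.of w =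
      (w.toWord.map fun l => cond l.2 (Abelianization.of (FreeGroup.of l.1))
        (Abelianization.of (FreeGroup.of l.1))⁻¹).prod := by
    intro w
    conv_lhs => rw [← FreeGroup.mk_toWord (x := w)]
    have := FreeGroup.lift_mk (L := w.toWord)
      (f := fun i : Fin m => Abelianization.of (FreeGroup.of i))
    rw [← this]
    congr 1
    ext i
    simp
  rw [key u, key v]
  exact (hperm.map _).prod_eq

lemma mem_commutator_of_abel (g : FreeGroup (Fin m)) (h : Abelianization.of g = 1) :
    g ∈ commutator (FreeGroup (Fin m)) := by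
  rw [← Abelianization.ker_of]; exact h

lemma conn_mem (u v : FreeGroup (Fin m)) (h : ∀ l, u.toWord.count l = v.toWord.count l)
    (x : Fin m × Bool) (y : Fin m) :
    u⁻¹ * FreeGroup.mk (cw x y) * v ∈ commutator (FreeGroup (Fin m)) := by
  apply mem_commutator_of_abel
  have hc : Abelianization.of (FreeGroup.mk (cw x y)) = 1 := by
    have := FreeGroup.lift_mk (L := cw x y)
      (f := fun i : Fin m => Abelianization.of (FreeGroup.of i))
    have e : FreeGroup.lift (fun i : Fin m => Abelianization.of (FreeGroup.of i)) =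
        Abelianization.of := by
      ext i; simp
    rw [e] at this
    rw [this]
    rcases x with ⟨a, b⟩
    cases b
    · simp only [cw, List.map_cons, List.map_nil, List.prod_cons, List.prod_nil, cond_true,
        cond_false, Bool.not_false]
      rw [mul_one]
      generalize Abelianization.of (FreeGroup.of y) = p
      generalize Abelianization.of (FreeGroup.of a) = q
      rw [mul_comm q]
      group
    · simp only [cw, List.map_cons, List.map_nil, List.prod_cons, List.prod_nil, cond_true,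
        cond_false, Bool.not_true]
      rw [mul_one]
      generalize Abelianization.of (FreeGroup.of y) = p
      generalize Abelianization.of (FreeGroup.of a) = q
      rw [mul_comm q⁻¹]
      group
  rw [map_mul, map_mul, hc, mul_one, map_inv, abel_eq u v h, inv_mul_cancel]

/-! ### Cones around a direction -/

/-- The cone `{x : |x_i - r_i s(x)| < δ s(x)}` with `s(x) = ∑ x_i > 0`. -/
def cone (r : Fin m → ℝ) (δ : ℝ) : Set (Fin m → ℝ) :=
  {x | 0 < ∑ i, x i ∧ ∀ i, |x i - r i * ∑ j, x j| < δ * ∑ j, x j}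

lemma cone_isOpenCone (r : Fin m → ℝ) (δ : ℝ) : IsOpenCone (cone r δ) := by
  constructor
  · have h1 : IsOpen {x : Fin m → ℝ | 0 < ∑ i, x i} :=
      isOpen_lt continuous_const (by fun_prop)
    have h2 : IsOpen {x : Fin m → ℝ | ∀ i, |x i - r i * ∑ j, x j| < δ * ∑ j, x j} := by
      rw [Set.setOf_forall]
      exact isOpen_iInter_of_finite fun i => isOpen_lt (by fun_prop) (by fun_prop)
    exact h1.inter h2
  · rintro x ⟨h1, h2⟩ t ht
    have hs : ∑ j, (t • x) j = t * ∑ j, x j := by
      simp [Finset.mul_sum]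
    refine ⟨by rw [hs]; positivity, fun i => ?_⟩
    rw [hs]
    have e : (t • x) i - r i * (t * ∑ j, x j) = t * (x i - r i * ∑ j, x j) := by
      simp only [Pi.smul_apply, smul_eq_mul]; ring
    rw [e, abs_mul, abs_of_pos ht]
    calc t * |x i - r i * ∑ j, x j| < t * (δ * ∑ j, x j) := mul_lt_mul_of_pos_left (h2 i) ht
      _ = δ * (t * ∑ j, x j) := by ring

lemma mem_cone (r : Fin m → ℝ) (hr : ∑ i, r i = 1) {δ : ℝ} (hδ : 0 < δ) : r ∈ cone r δ := by
  refine ⟨by rw [hr]; norm_num, fun i => ?_⟩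
  rw [hr]
  simpa using hδ

lemma exists_cone_subset (C : Set (Fin m → ℝ)) (hC : IsOpenCone C) (r : Fin m → ℝ) (hr : r ∈ C) :
    ∃ δ > 0, cone r (2 * δ) ⊆ C := by
  obtain ⟨ε, hε, hball⟩ := Metric.isOpen_iff.mp hC.1 r hr
  refine ⟨ε / 2, by positivity, ?_⟩
  rintro x ⟨h1, h2⟩
  have hy : (∑ j, x j)⁻¹ • x ∈ C := by
    apply hball
    rw [Metric.mem_ball, dist_pi_lt_iff hε]
    intro i
    rw [Real.dist_eq]
    have e : ((∑ j, x j)⁻¹ • x) i - r i = (∑ j, x j)⁻¹ * (x i - r i * ∑ j, x j) := by
      simp only [Pi.smul_apply, smul_eq_mul]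
      field_simp
    rw [e, abs_mul, abs_of_pos (inv_pos.mpr h1), inv_mul_lt_iff₀ h1]
    have := h2 i
    linarith
  have := hC.2 _ hy (∑ j, x j) h1
  rwa [smul_smul, mul_inv_cancel₀ h1.ne', one_smul] at this

/-! ### The pigeonhole -/

/-- The class of a word: its first letter and its letter counts. -/
noncomputable def cls (w : FreeGroup (Fin m)) : Option (Fin m × Bool) × (Fin m × Bool → ℕ) :=
  (w.toWord.head?, fun l => w.toWord.count l)

lemma countP_invRev (i : Fin m) (L : List (Fin m × Bool)) :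
    (FreeGroup.invRev L).countP (fun l => decide (l.1 = i)) =
      L.countP (fun l => decide (l.1 = i)) := by
  unfold FreeGroup.invRev
  rw [List.countP_reverse, List.countP_map]
  rfl

/-- The combinatorial core. -/
lemma core_count (hm : 2 ≤ m) (H : Subgroup (FreeGroup (Fin m)))
    (hH : commutator (FreeGroup (Fin m)) ≤ H) (r : Fin m → ℝ) (hr0 : ∀ i, 0 ≤ r i)
    (hr1 : ∑ i, r i = 1) {δ : ℝ} (hδ : 0 < δ) (n : ℕ) (hn : 4 / δ ≤ n) (hn1 : 1 ≤ n) :
    ((shell (⊤ : Subgroup (FreeGroup (Fin m))) (cone r δ) n).ncard /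
      ((2 * m + 1) * ((n : ℝ) + 1) ^ (2 * m))) ^ 2 ≤
      ((shell H (cone r (2 * δ)) ((2 * n + 4 : ℕ) : ℝ)).ncard : ℝ) := by
  classical
  have hnR : (0 : ℝ) < n := by exact_mod_cast hn1
  have hfin := shell_finite (⊤ : Subgroup (FreeGroup (Fin m))) (cone r δ) hnR
  set A := hfin.toFinset with hA
  have hAmem : ∀ w, w ∈ A ↔ w.toWord.length = n ∧ wp w ∈ cone r δ := by
    intro w
    rw [hA, Set.Finite.mem_toFinset, shell_eq _ _ hnR, Nat.ceil_natCast]
    simp
  have hAcard : (shell (⊤ : Subgroup (FreeGroup (Fin m))) (cone r δ) n).ncard = A.card :=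
    Set.ncard_eq_toFinset_card _ hfin
  set T : Finset (Option (Fin m × Bool) × (Fin m × Bool → ℕ)) :=
    Finset.univ ×ˢ Fintype.piFinset (fun _ => Finset.range (n + 1)) with hT
  have hTcard : (T.card : ℝ) = (2 * m + 1) * ((n : ℝ) + 1) ^ (2 * m) := by
    rw [hT, Finset.card_product, Fintype.card_piFinset, Finset.prod_const]
    simp only [Finset.card_univ, Fintype.card_option, Fintype.card_prod, Fintype.card_fin,
      Fintype.card_bool, Finset.card_range]
    push_cast
    rw [mul_comm m 2]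
    ring
  have hmaps : ∀ w ∈ A, cls w ∈ T := by
    intro w hw
    rw [hAmem] at hw
    simp only [hT, Finset.mem_product, Finset.mem_univ, true_and, Fintype.mem_piFinset,
      Finset.mem_range, cls]
    intro l
    have : w.toWord.count l ≤ w.toWord.length := List.count_le_length
    omega
  have hTne : T.Nonempty := by
    refine ⟨(none, fun _ => 0), ?_⟩
    simp [hT]
  have hTpos : (0 : ℝ) < T.card := by exact_mod_cast hTne.card_pos
  obtain ⟨κ, _, hκ⟩ := Finset.exists_le_card_fiber_of_nsmul_le_card_of_maps_to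
    (b := (A.card : ℝ) / T.card) hmaps hTne (by
      rw [nsmul_eq_mul]
      exact le_of_eq (by field_simp))
  set U := A.filter (fun w => cls w = κ) with hU
  rw [hAcard, ← hTcard]
  refine le_trans (pow_le_pow_left₀ (by positivity) hκ 2) ?_
  rcases U.eq_empty_or_nonempty with hUe | ⟨u0, hu0⟩
  · rw [hUe]; simp
  -- the first letter
  have hu0' : u0 ∈ A ∧ cls u0 = κ := Finset.mem_filter.mp hu0
  obtain ⟨x, lu0, hx⟩ : ∃ x l, u0.toWord = x :: l := by
    have := ((hAmem u0).mp hu0'.1).1
    cases h : u0.toWord with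
    | nil => rw [h] at this; simp at this; omega
    | cons a l => exact ⟨a, l, rfl⟩
  have hhead : ∀ u ∈ U, ∃ l, u.toWord = x :: l := by
    intro u hu
    have hu' := Finset.mem_filter.mp hu
    have h1 : u.toWord.head? = u0.toWord.head? := by
      have : cls u = cls u0 := hu'.2.trans hu0'.2.symm
      exact congrArg Prod.fst this
    rw [hx] at h1
    cases h : u.toWord with
    | nil => rw [h] at h1; simp at h1
    | cons a l =>
      rw [h] at h1
      simp at h1
      exact ⟨l, by rw [h1]⟩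
  obtain ⟨y, hy⟩ : ∃ y : Fin m, y ≠ x.1 := by
    have : Nontrivial (Fin m) := Fin.nontrivial_iff_two_le.mpr hm
    exact exists_ne x.1
  have hcnt : ∀ u ∈ U, ∀ v ∈ U, ∀ l, u.toWord.count l = v.toWord.count l := by
    intro u hu v hv l
    have h1 : cls u = cls v :=
      (Finset.mem_filter.mp hu).2.trans (Finset.mem_filter.mp hv).2.symm
    exact congrFun (congrArg Prod.snd h1) l
  -- the map
  set Φ : FreeGroup (Fin m) × FreeGroup (Fin m) → FreeGroup (Fin m) :=
    fun p => p.1⁻¹ * FreeGroup.mk (cw x y) * p.2 with hΦ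
  have hword : ∀ u ∈ U, ∀ v ∈ U, (Φ (u, v)).toWord =
      FreeGroup.invRev u.toWord ++ cw x y ++ v.toWord := by
    intro u hu v hv
    obtain ⟨lu, hlu⟩ := hhead u hu
    obtain ⟨lv, hlv⟩ := hhead v hv
    exact toWord_conn u v x lu lv hlu hlv y hy
  have hlen : ∀ u ∈ U, u.toWord.length = n := fun u hu =>
    ((hAmem u).mp (Finset.mem_filter.mp hu).1).1
  have hinj : Set.InjOn Φ (U ×ˢ U : Finset _) := by
    rintro ⟨u, v⟩ huv ⟨u', v'⟩ huv' heq
    simp only [Finset.coe_product, Set.mem_prod, Finset.mem_coe] at huv huv'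
    have h1 := hword u huv.1 v huv.2
    have h2 := hword u' huv'.1 v' huv'.2
    rw [heq, h2, List.append_assoc, List.append_assoc] at h1
    have h3 := List.append_inj h1 (by
      rw [FreeGroup.invRev_length, FreeGroup.invRev_length, hlen u huv.1, hlen u' huv'.1])
    have h4 := List.append_inj h3.2 rfl
    have h5 : u'.toWord = u.toWord := FreeGroup.invRev_injective h3.1
    rw [Prod.mk.injEq]
    exact ⟨(FreeGroup.toWord_injective h5).symm, (FreeGroup.toWord_injective h4.2).symm⟩
  have hmem : ∀ p ∈ U ×ˢ U, Φ p ∈ shell H (cone r (2 * δ)) ((2 * n + 4 : ℕ) : ℝ) := by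
    rintro ⟨u, v⟩ huv
    rw [Finset.mem_product] at huv
    have h1 := hword u huv.1 v huv.2
    have hlenΦ : (Φ (u, v)).toWord.length = 2 * n + 4 := by
      rw [h1, List.length_append, List.length_append, FreeGroup.invRev_length, hlen u huv.1,
        hlen v huv.2]
      simp [cw]
      omega
    rw [shell_eq _ _ (by positivity), Nat.ceil_natCast]
    refine ⟨hH (conn_mem u v (hcnt u huv.1 v huv.2) x y), hlenΦ, ?_⟩
    have hsum : ∑ i, wp (Φ (u, v)) i = 2 * n + 4 := by
      rw [sum_wp, hlenΦ]; push_cast; ring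
    have hu1 := ((hAmem u).mp (Finset.mem_filter.mp huv.1).1).2
    have hv1 := ((hAmem v).mp (Finset.mem_filter.mp huv.2).1).2
    refine ⟨by rw [hsum]; positivity, fun i => ?_⟩
    rw [hsum]
    have hwi : wp (Φ (u, v)) i = wp u i + ((cw x y).countP (fun l => decide (l.1 = i)) : ℝ) +
        wp v i := by
      unfold wp
      rw [h1, List.countP_append, List.countP_append, countP_invRev]
      push_cast
      ring
    have hcw : ((cw x y).countP (fun l => decide (l.1 = i)) : ℝ) ≤ 4 := by
      have : (cw x y).countP (fun l => decide (l.1 = i)) ≤ (cw x y).length :=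
        List.countP_le_length
      have h4 : (cw x y).length = 4 := rfl
      rw [h4] at this
      exact_mod_cast this
    have hcw0 : (0 : ℝ) ≤ ((cw x y).countP (fun l => decide (l.1 = i)) : ℝ) := Nat.cast_nonneg _
    have hui := hu1.2 i
    have hvi := hv1.2 i
    rw [sum_wp, hlen u huv.1] at hui
    rw [sum_wp, hlen v huv.2] at hvi
    have hri : r i ≤ 1 := by
      rw [← hr1]
      exact Finset.single_le_sum (fun j _ => hr0 j) (Finset.mem_univ i)
    have hri0 := hr0 i
    rw [div_le_iff₀ hδ] at hn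
    rw [abs_lt] at hui hvi ⊢
    rw [hwi]
    constructor
    · nlinarith [hui.1, hvi.1]
    · nlinarith [hui.2, hvi.2]
  have hfin2 := shell_finite H (cone r (2 * δ)) (R := ((2 * n + 4 : ℕ) : ℝ)) (by positivity)
  have hcard : (U ×ˢ U).card ≤ (shell H (cone r (2 * δ)) ((2 * n + 4 : ℕ) : ℝ)).ncard := by
    rw [Set.ncard_eq_toFinset_card _ hfin2]
    apply Finset.card_le_card_of_injOn Φ
    · intro p hp
      rw [Finset.mem_coe, Set.Finite.mem_toFinset]
      exact hmem p hp
    · exact hinj
  rw [Finset.card_product] at hcard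
  have : ((U.card * U.card : ℕ) : ℝ) ≤
      ((shell H (cone r (2 * δ)) ((2 * n + 4 : ℕ) : ℝ)).ncard : ℝ) := Nat.cast_le.mpr hcard
  rw [Nat.cast_mul] at this
  rw [sq]
  exact this

/-! ### The exponents -/

lemma log_small (c C₁ C₂ : ℝ) (hc : 0 < c) :
    ∀ᶠ n : ℕ in atTop, C₁ + C₂ * Real.log ((n : ℝ) + 1) < c * n := by
  have h1 : Tendsto (fun x : ℝ => Real.log x / x) atTop (𝓝 0) := by
    have := Real.isLittleO_log_id_atTop.tendsto_div_nhds_zero
    simpa using this
  have h2 : Tendsto (fun n : ℕ => Real.log ((n : ℝ) + 1) / ((n : ℝ) + 1)) atTop (𝓝 0) := by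
    have h3 : Tendsto (fun n : ℕ => (n : ℝ) + 1) atTop atTop :=
      tendsto_atTop_add_const_right _ _ tendsto_natCast_atTop_atTop
    exact h1.comp h3
  have h4 : Tendsto (fun n : ℕ => (C₁ + C₂ * Real.log ((n : ℝ) + 1)) / ((n : ℝ) + 1)) atTop
      (𝓝 0) := by
    have h5 : Tendsto (fun n : ℕ => C₁ / ((n : ℝ) + 1)) atTop (𝓝 0) := by
      have h3 : Tendsto (fun n : ℕ => (n : ℝ) + 1) atTop atTop :=
        tendsto_atTop_add_const_right _ _ tendsto_natCast_atTop_atTop
      exact h3.const_div_atTop C₁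
    have h6 := h5.add (h2.const_mul C₂)
    rw [mul_zero, add_zero] at h6
    refine h6.congr fun n => ?_
    ring
  filter_upwards [h4.eventually (gt_mem_nhds (by positivity : (0 : ℝ) < c / 2)),
    eventually_ge_atTop 1] with n hn hn1
  have hn' : (1 : ℝ) ≤ n := by exact_mod_cast hn1
  rw [div_lt_iff₀ (by positivity)] at hn
  nlinarith

lemma tau_le (hm : 2 ≤ m) (H : Subgroup (FreeGroup (Fin m)))
    (hH : commutator (FreeGroup (Fin m)) ≤ H) (r : Fin m → ℝ) (hr0 : ∀ i, 0 ≤ r i)
    (hr1 : ∑ i, r i = 1) {δ : ℝ} (hδ : 0 < δ) :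
    tau (⊤ : Subgroup (FreeGroup (Fin m))) (cone r δ) ≤ tau H (cone r (2 * δ)) := by
  by_contra hcon
  push Not at hcon
  obtain ⟨a, ha1, ha2⟩ := EReal.lt_iff_exists_real_btwn.mp hcon
  obtain ⟨b, hb1, hb2⟩ := EReal.lt_iff_exists_real_btwn.mp ha2
  have hab : a < b := by exact_mod_cast hb1
  unfold tau at ha1 hb2
  have hev := eventually_lt_of_limsup_lt ha1
  have hfr := frequently_lt_of_lt_limsup (by isBoundedDefault) hb2
  obtain ⟨R0, hR0⟩ := eventually_atTop.mp hev
  have hlog := log_small (2 * (b - a)) (2 * |b| + 4 * |a| + 2 * Real.log (2 * m + 1))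
    (4 * m) (by linarith)
  obtain ⟨n0, hn0⟩ := eventually_atTop.mp hlog
  have hbig : ∀ᶠ R : ℝ in atTop, 1 ≤ R ∧ R0 ≤ R ∧ (n0 : ℝ) ≤ R ∧ 4 / δ ≤ R :=
    (eventually_ge_atTop 1).and ((eventually_ge_atTop R0).and
      ((eventually_ge_atTop (n0 : ℝ)).and (eventually_ge_atTop (4 / δ))))
  obtain ⟨R, hRb, hR1, hRR0, hRn0, hRδ⟩ := (hfr.and_eventually hbig).exists
  have hRpos : 0 < R := by linarith
  set n := ⌈R⌉₊ with hn
  have hRn : R ≤ n := Nat.le_ceil R
  have hnR : (n : ℝ) < R + 1 := Nat.ceil_lt_add_one hRpos.le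
  have hn1 : 1 ≤ n := by
    have : (1 : ℝ) ≤ n := le_trans hR1 hRn
    exact_mod_cast this
  have hnpos : (0 : ℝ) < n := by exact_mod_cast hn1
  have hshell : shell (⊤ : Subgroup (FreeGroup (Fin m))) (cone r δ) R =
      shell (⊤ : Subgroup (FreeGroup (Fin m))) (cone r δ) n := by
    rw [shell_eq _ _ hRpos, shell_eq _ _ hnpos, Nat.ceil_natCast]
  set N := (shell (⊤ : Subgroup (FreeGroup (Fin m))) (cone r δ) R).ncard with hN
  have hN0 : N ≠ 0 := by
    intro h0
    rw [h0] at hRb
    unfold elog at hRb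
    rw [if_pos rfl, EReal.coe_mul_bot_of_pos (by positivity)] at hRb
    exact not_lt_bot hRb
  have hNpos : (0 : ℝ) < N := by exact_mod_cast Nat.pos_of_ne_zero hN0
  have hNlog : b * R < Real.log N := by
    unfold elog at hRb
    rw [if_neg hN0] at hRb
    have h1 : b < 1 / R * Real.log N := by exact_mod_cast hRb
    rw [one_div, inv_mul_eq_div, lt_div_iff₀ hRpos] at h1
    exact h1
  have hcore := core_count hm H hH r hr0 hr1 hδ n (le_trans hRδ hRn) hn1
  rw [← hshell, ← hN] at hcore
  set M := (shell H (cone r (2 * δ)) ((2 * n + 4 : ℕ) : ℝ)).ncard with hM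
  set K : ℝ := (2 * m + 1) * ((n : ℝ) + 1) ^ (2 * m) with hK
  have hK0 : 0 < K := by positivity
  have hMpos : (0 : ℝ) < M := lt_of_lt_of_le (by positivity) hcore
  have hM0 : M ≠ 0 := by
    intro h; rw [h] at hMpos; simp at hMpos
  have hMR : a * (2 * n + 4) > Real.log M := by
    have h1 := hR0 ((2 * n + 4 : ℕ) : ℝ) (by push_cast; linarith)
    simp only [← hM] at h1
    unfold elog at h1
    rw [if_neg hM0] at h1
    have h2 : 1 / ((2 * n + 4 : ℕ) : ℝ) * Real.log M < a := by exact_mod_cast h1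
    have h3 : (0 : ℝ) < ((2 * n + 4 : ℕ) : ℝ) := by positivity
    rw [one_div, inv_mul_eq_div, div_lt_iff₀ h3] at h2
    push_cast at h2
    exact h2
  have hlogM : 2 * (Real.log N - Real.log K) ≤ Real.log M := by
    have h1 : Real.log ((N / K) ^ 2) ≤ Real.log M := Real.log_le_log (by positivity) hcore
    rw [Real.log_pow, Real.log_div hNpos.ne' hK0.ne'] at h1
    push_cast at h1
    exact h1
  have hlogK : Real.log K = Real.log (2 * m + 1) + 2 * m * Real.log ((n : ℝ) + 1) := by
    rw [hK, Real.log_mul (by positivity) (by positivity), Real.log_pow]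
    push_cast
    ring
  have hfinal := hn0 n (by
    have : (n0 : ℝ) ≤ n := le_trans hRn0 hRn
    exact_mod_cast this)
  have hbR : b * n - |b| ≤ b * R := by
    have h1 : |b| * (n - R) ≤ |b| * 1 := mul_le_mul_of_nonneg_left (by linarith) (abs_nonneg b)
    have h2 : b * (n - R) ≤ |b| * (n - R) :=
      mul_le_mul_of_nonneg_right (le_abs_self b) (by linarith)
    nlinarith
  have ha4 : a * (2 * n + 4) ≤ 2 * a * n + 4 * |a| := by
    have := le_abs_self a
    nlinarith
  nlinarith

/-- For every `m ≥ 2`, every subgroup `H` of the free group of rank `m` containing the commutator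
subgroup, and every `r` in the simplex `M_m`, one has `ψ_H(r) = ψ_{F_m}(r)`. -/
theorem result : ∀ m : ℕ, 2 ≤ m → ∀ H : Subgroup (FreeGroup (Fin m)),
    commutator (FreeGroup (Fin m)) ≤ H → ∀ r : Fin m → ℝ, (∀ i, 0 ≤ r i) → ∑ i, r i = 1 →
      psi H r = psi (⊤ : Subgroup (FreeGroup (Fin m))) r := by
  intro m hm H hH r hr0 hr1
  apply le_antisymm (psi_mono le_top r)
  refine le_iInf₂ fun C hC => ?_
  obtain ⟨δ, hδ, hsub⟩ := exists_cone_subset C hC.1 r hC.2
  calc psi (⊤ : Subgroup (FreeGroup (Fin m))) r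
      ≤ tau (⊤ : Subgroup (FreeGroup (Fin m))) (cone r δ) :=
        iInf₂_le (cone r δ) ⟨cone_isOpenCone r δ, mem_cone r hr1 hδ⟩
    _ ≤ tau H (cone r (2 * δ)) := tau_le hm H hH r hr0 hr1 hδ
    _ ≤ tau H C := tau_mono le_rfl hsub

end Pool.Agent.Results.MP_dc78ae_al.AbelianQuotient
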